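import Pool.Agent.K1H32.FE.Stm

/-!
# Entropy of random variables on finite weighted spaces

`t_LAWF`, `t_MONO`, `t_COND`, `t_SUBM`, `t_MARK`.
-/

set_option autoImplicit false

open Filter Topology MeasureTheory Real

namespace Pool.Agent.K1H78.FE

open Pool.Agent.K1H32.FE

section Pr

variable {Ω α β : Type} [Fintype Ω]

theorem pr_nonneg {p : Ω → ℝ} (hp : ∀ ω, 0 ≤ p ω) (X : Ω → α) (a : α) : 0 ≤ pr p X a := by
  unfold pr
  refine Finset.sum_nonneg fun ω _ => ?_
  split_ifs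
  · exact hp ω
  · exact le_rfl

theorem pr_zero {p : Ω → ℝ} {X : Ω → α} {a : α} (h : ∀ ω, X ω = a → p ω = 0) : pr p X a = 0 := by
  unfold pr
  refine Finset.sum_eq_zero fun ω _ => ?_
  split_ifs with h1
  · exact h ω h1
  · rfl

open Classical in
/-- Marginals. -/
theorem pr_comp (p : Ω → ℝ) (X : Ω → α) (f : α → β) (b : β) (T : Finset α)
    (hT : ∀ ω, p ω ≠ 0 → X ω ∈ T) :
    pr p (fun ω => f (X ω)) b = ∑ a ∈ T.filter (fun a => f a = b), pr p X a := by
  unfold pr
  rw [Finset.sum_comm]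
  refine Finset.sum_congr rfl fun ω _ => ?_
  rw [Finset.sum_ite_eq]
  simp only [Finset.mem_filter]
  by_cases h0 : p ω = 0
  · simp [h0]
  · simp [hT ω h0]

open Classical in
theorem t_LAWF : S_LAWF := by
  intro Ω α _ p X T hT
  unfold Hp
  have h1 : ∑ a ∈ Finset.univ.image X, negMulLog (pr p X a) =
      ∑ a ∈ Finset.univ.image X ∪ T, negMulLog (pr p X a) := by
    refine Finset.sum_subset Finset.subset_union_left fun a _ ha => ?_
    rw [pr_zero, negMulLog_zero]
    intro ω hω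
    exact absurd (Finset.mem_image.2 ⟨ω, Finset.mem_univ _, hω⟩) ha
  have h2 : ∑ a ∈ T, negMulLog (pr p X a) =
      ∑ a ∈ Finset.univ.image X ∪ T, negMulLog (pr p X a) := by
    refine Finset.sum_subset Finset.subset_union_right fun a _ ha => ?_
    rw [pr_zero, negMulLog_zero]
    intro ω hω
    by_contra h0
    exact ha (hω ▸ hT ω h0)
  rw [h1, h2]

end Pr

/-- `η(x + y) ≤ η(x) + η(y)`. -/
theorem eta_add {x y : ℝ} (hx : 0 ≤ x) (hy : 0 ≤ y) :
    negMulLog (x + y) ≤ negMulLog x + negMulLog y := by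
  rcases hx.eq_or_lt with h | h
  · rw [← h]; simp
  rcases hy.eq_or_lt with h' | h'
  · rw [← h']; simp
  unfold negMulLog
  have e1 := Real.log_le_log h (show x ≤ x + y by linarith)
  have e2 := Real.log_le_log h' (show y ≤ x + y by linarith)
  nlinarith [mul_le_mul_of_nonneg_left e1 hx, mul_le_mul_of_nonneg_left e2 hy]

theorem eta_sum {α : Type} (T : Finset α) (q : α → ℝ) (hq : ∀ a ∈ T, 0 ≤ q a) :
    negMulLog (∑ a ∈ T, q a) ≤ ∑ a ∈ T, negMulLog (q a) := by
  classical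
  induction T using Finset.induction_on with
  | empty => simp
  | insert a T ha ih =>
    rw [Finset.sum_insert ha, Finset.sum_insert ha]
    have h1 := eta_add (hq a (Finset.mem_insert_self a T))
      (Finset.sum_nonneg fun b hb => hq b (Finset.mem_insert_of_mem hb))
    have h2 := ih fun b hb => hq b (Finset.mem_insert_of_mem hb)
    linarith

theorem t_MONO : S_MONO := by
  classical
  intro Ω α β _ p X f hp
  have hL : Hp p (fun ω => f (X ω)) =
      ∑ b ∈ Finset.univ.image (fun ω => f (X ω)), negMulLog (pr p (fun ω => f (X ω)) b) := by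
    unfold Hp
    congr!
  have hR : Hp p X = ∑ a ∈ Finset.univ.image X, negMulLog (pr p X a) := by
    unfold Hp
    congr!
  rw [hL, hR]
  have hT : ∀ ω, p ω ≠ 0 → X ω ∈ Finset.univ.image X := fun ω _ =>
    Finset.mem_image.2 ⟨ω, Finset.mem_univ _, rfl⟩
  have e : ∑ a ∈ Finset.univ.image X, negMulLog (pr p X a) =
      ∑ b ∈ Finset.univ.image (fun ω => f (X ω)),
        ∑ a ∈ (Finset.univ.image X).filter (fun a => f a = b), negMulLog (pr p X a) := by
    symm
    apply Finset.sum_fiberwise_of_maps_to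
    intro a ha
    obtain ⟨ω, _, rfl⟩ := Finset.mem_image.1 ha
    exact Finset.mem_image.2 ⟨ω, Finset.mem_univ _, rfl⟩
  rw [e]
  refine Finset.sum_le_sum fun b _ => ?_
  have h1 := pr_comp p X f b (Finset.univ.image X) hT
  rw [h1]
  convert eta_sum _ _ fun a _ => pr_nonneg hp X a

/-! ### The inequality of Jensen -/

/-- `log t ≤ t - 1`, in the form used below. -/
theorem eta_le {q c : ℝ} (hq : 0 ≤ q) (hc : 0 < c) :
    negMulLog q ≤ - q * Real.log c + (c - q) := by
  rcases hq.eq_or_lt with h | h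
  · rw [← h]; simp [hc.le]
  have h1 := Real.log_le_sub_one_of_pos (show 0 < c / q by positivity)
  rw [Real.log_div hc.ne' h.ne'] at h1
  have h2 := mul_le_mul_of_nonneg_left h1 hq
  have h3 : q * (c / q - 1) = c - q := by field_simp
  unfold negMulLog
  nlinarith [h2, h3]

theorem eta_card {α : Type} (T : Finset α) (q : α → ℝ) (hq : ∀ a ∈ T, 0 ≤ q a) (N : ℕ)
    (hN : 1 ≤ N) (hc : (T.filter fun a => q a ≠ 0).card ≤ N) :
    ∑ a ∈ T, negMulLog (q a) ≤
      negMulLog (∑ a ∈ T, q a) + (∑ a ∈ T, q a) * Real.log N := by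
  classical
  set T' := T.filter fun a => q a ≠ 0 with hT'
  have e1 : ∑ a ∈ T, negMulLog (q a) = ∑ a ∈ T', negMulLog (q a) := by
    symm
    refine Finset.sum_subset (Finset.filter_subset _ _) fun a ha ha' => ?_
    have : q a = 0 := by
      by_contra h
      exact ha' (Finset.mem_filter.2 ⟨ha, h⟩)
    simp [this]
  have e2 : ∑ a ∈ T, q a = ∑ a ∈ T', q a := by
    symm
    refine Finset.sum_subset (Finset.filter_subset _ _) fun a ha ha' => ?_
    by_contra h
    exact ha' (Finset.mem_filter.2 ⟨ha, h⟩)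
  have hq' : ∀ a ∈ T', 0 ≤ q a := fun a ha => hq a (Finset.mem_filter.1 ha).1
  rw [e1, e2]
  set s := ∑ a ∈ T', q a with hs
  have hs0 : 0 ≤ s := Finset.sum_nonneg hq'
  have hNp : (0 : ℝ) < N := by exact_mod_cast hN
  rcases hs0.eq_or_lt with h0 | h0
  · have hz : ∀ a ∈ T', q a = 0 := (Finset.sum_eq_zero_iff_of_nonneg hq').1 h0.symm
    rw [← h0]
    simp only [negMulLog_zero, zero_mul, add_zero]
    exact (Finset.sum_eq_zero fun a ha => by rw [hz a ha, negMulLog_zero]).le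
  · have h1 : ∑ a ∈ T', negMulLog (q a) ≤
        ∑ a ∈ T', (- q a * Real.log (s / N) + (s / N - q a)) :=
      Finset.sum_le_sum fun a ha => eta_le (hq' a ha) (by positivity)
    have h2 : ∑ a ∈ T', (- q a * Real.log (s / N) + (s / N - q a)) =
        - s * Real.log (s / N) + (T'.card * (s / N) - s) := by
      rw [Finset.sum_add_distrib, Finset.sum_sub_distrib, ← Finset.sum_mul,
        Finset.sum_neg_distrib, ← hs, Finset.sum_const, nsmul_eq_mul]
    have h3 : (T'.card : ℝ) * (s / N) ≤ s := by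
      have : (T'.card : ℝ) ≤ N := by exact_mod_cast hc
      calc (T'.card : ℝ) * (s / N) ≤ N * (s / N) := by gcongr
        _ = s := by field_simp
    rw [h2, Real.log_div h0.ne' hNp.ne'] at h1
    have h4 : negMulLog s = - s * Real.log s := rfl
    rw [h4]
    linarith

/-! ### Products -/

section Prod

variable {Ω α β γ : Type} [Fintype Ω]

open Classical in
theorem Hp_pair (p : Ω → ℝ) (X : Ω → α) (Y : Ω → β) (A : Finset α) (B : Finset β)
    (hA : ∀ ω, X ω ∈ A) (hB : ∀ ω, Y ω ∈ B) :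
    Hp p (fun ω => (X ω, Y ω)) =
      ∑ y ∈ B, ∑ x ∈ A, negMulLog (pr p (fun ω => (X ω, Y ω)) (x, y)) := by
  rw [t_LAWF Ω (α × β) p (fun ω => (X ω, Y ω)) (A ×ˢ B) fun ω _ =>
    Finset.mem_product.2 ⟨hA ω, hB ω⟩, Finset.sum_product_right]

open Classical in
theorem pr_fst (p : Ω → ℝ) (X : Ω → α) (Y : Ω → β) (B : Finset β)
    (hB : ∀ ω, Y ω ∈ B) (x : α) :
    pr p X x = ∑ y ∈ B, pr p (fun ω => (X ω, Y ω)) (x, y) := by
  unfold pr
  rw [Finset.sum_comm]
  refine Finset.sum_congr rfl fun ω _ => ?_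
  by_cases hx : X ω = x
  · simp [hx, hB ω]
  · simp [hx]

open Classical in
theorem pr_snd (p : Ω → ℝ) (X : Ω → α) (Y : Ω → β) (A : Finset α)
    (hA : ∀ ω, X ω ∈ A) (y : β) :
    pr p Y y = ∑ x ∈ A, pr p (fun ω => (X ω, Y ω)) (x, y) := by
  unfold pr
  rw [Finset.sum_comm]
  refine Finset.sum_congr rfl fun ω _ => ?_
  by_cases hy : Y ω = y
  · simp [hy, hA ω]
  · simp [hy]

open Classical in
theorem pr_13 (p : Ω → ℝ) (X : Ω → α) (Y : Ω → β) (Z : Ω → γ) (B : Finset β)
    (hB : ∀ ω, Y ω ∈ B) (x : α) (z : γ) :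
    pr p (fun ω => (X ω, Z ω)) (x, z) =
      ∑ y ∈ B, pr p (fun ω => (X ω, Y ω, Z ω)) (x, y, z) := by
  unfold pr
  rw [Finset.sum_comm]
  refine Finset.sum_congr rfl fun ω _ => ?_
  by_cases hx : X ω = x
  · by_cases hz : Z ω = z
    · simp [hx, hz, hB ω]
    · simp [hz]
  · simp [hx]

open Classical in
theorem pr_12 (p : Ω → ℝ) (X : Ω → α) (Y : Ω → β) (Z : Ω → γ) (C : Finset γ)
    (hC : ∀ ω, Z ω ∈ C) (x : α) (y : β) :
    pr p (fun ω => (X ω, Y ω)) (x, y) =
      ∑ z ∈ C, pr p (fun ω => (X ω, Y ω, Z ω)) (x, y, z) := by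
  unfold pr
  rw [Finset.sum_comm]
  refine Finset.sum_congr rfl fun ω _ => ?_
  by_cases hx : X ω = x
  · by_cases hy : Y ω = y
    · simp [hx, hy, hC ω]
    · simp [hy]
  · simp [hx]

open Classical in
theorem Hp_triple (p : Ω → ℝ) (X : Ω → α) (Y : Ω → β) (Z : Ω → γ) (A : Finset α)
    (B : Finset β) (C : Finset γ) (hA : ∀ ω, X ω ∈ A) (hB : ∀ ω, Y ω ∈ B) (hC : ∀ ω, Z ω ∈ C) :
    Hp p (fun ω => (X ω, Y ω, Z ω)) =
      ∑ x ∈ A, ∑ y ∈ B, ∑ z ∈ C, negMulLog (pr p (fun ω => (X ω, Y ω, Z ω)) (x, y, z)) := by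
  rw [t_LAWF Ω (α × β × γ) p (fun ω => (X ω, Y ω, Z ω)) (A ×ˢ B ×ˢ C) fun ω _ =>
    Finset.mem_product.2 ⟨hA ω, Finset.mem_product.2 ⟨hB ω, hC ω⟩⟩, Finset.sum_product]
  refine Finset.sum_congr rfl fun x _ => ?_
  rw [Finset.sum_product]

end Prod

theorem t_COND : S_COND := by
  classical
  intro Ω α β _ p X Y n hp hn hX
  set A : Finset α := Finset.univ.image X with hA'
  set B : Finset β := Finset.univ.image Y with hB'
  have hA : ∀ ω, X ω ∈ A := fun ω => Finset.mem_image.2 ⟨ω, Finset.mem_univ _, rfl⟩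
  have hB : ∀ ω, Y ω ∈ B := fun ω => Finset.mem_image.2 ⟨ω, Finset.mem_univ _, rfl⟩
  have e1 := Hp_pair p X Y A B hA hB
  have e2 : Hp p Y = ∑ y ∈ B, negMulLog (pr p Y y) := t_LAWF Ω β p Y B fun ω _ => hB ω
  have e3 : ∑ ω, p ω * Real.log (n (Y ω)) = ∑ y ∈ B, pr p Y y * Real.log (n y) := by
    have : ∀ y ∈ B, pr p Y y * Real.log (n y) =
        ∑ ω, if Y ω = y then p ω * Real.log (n (Y ω)) else 0 := by
      intro y _
      unfold pr
      rw [Finset.sum_mul]
      refine Finset.sum_congr rfl fun ω _ => ?_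
      by_cases h : Y ω = y
      · simp [h]
      · simp [h]
    rw [Finset.sum_congr rfl this, Finset.sum_comm]
    refine Finset.sum_congr rfl fun ω _ => ?_
    rw [Finset.sum_ite_eq]
    simp [hB ω]
  rw [e1, e2, e3, ← Finset.sum_sub_distrib]
  refine Finset.sum_le_sum fun y _ => ?_
  have h1 := eta_card A (fun x => pr p (fun ω => (X ω, Y ω)) (x, y))
    (fun x _ => pr_nonneg hp _ _) (n y) (hn y) (by
      apply hX y
      intro x hx
      by_contra hcon
      push Not at hcon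
      apply (Finset.mem_filter.1 hx).2
      apply pr_zero
      intro ω hω
      exact hcon ω (congrArg Prod.fst hω) (congrArg Prod.snd hω))
  rw [← pr_snd p X Y A hA y] at h1
  linarith

/-- Submodularity for fixed `z`. -/
theorem eta_sub {α β : Type} (A : Finset α) (B : Finset β) (P : α → β → ℝ)
    (hP : ∀ x y, 0 ≤ P x y) :
    ∑ x ∈ A, ∑ y ∈ B, negMulLog (P x y) + negMulLog (∑ x ∈ A, ∑ y ∈ B, P x y) ≤
      ∑ x ∈ A, negMulLog (∑ y ∈ B, P x y) + ∑ y ∈ B, negMulLog (∑ x ∈ A, P x y) := by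
  classical
  set a : α → ℝ := fun x => ∑ y ∈ B, P x y with ha
  set b : β → ℝ := fun y => ∑ x ∈ A, P x y with hb
  set s : ℝ := ∑ x ∈ A, ∑ y ∈ B, P x y with hs
  have ha0 : ∀ x, 0 ≤ a x := fun x => Finset.sum_nonneg fun y _ => hP x y
  have hb0 : ∀ y, 0 ≤ b y := fun y => Finset.sum_nonneg fun x _ => hP x y
  have hs0 : 0 ≤ s := Finset.sum_nonneg fun x _ => ha0 x
  have hsa : ∑ x ∈ A, a x = s := rfl
  have hsb : ∑ y ∈ B, b y = s := by rw [hs, Finset.sum_comm]
  rcases hs0.eq_or_lt with h0 | h0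
  · have hza : ∀ x ∈ A, a x = 0 :=
      (Finset.sum_eq_zero_iff_of_nonneg fun x _ => ha0 x).1 (hsa.trans h0.symm)
    have hzb : ∀ y ∈ B, b y = 0 :=
      (Finset.sum_eq_zero_iff_of_nonneg fun y _ => hb0 y).1 (hsb.trans h0.symm)
    have hz : ∀ x ∈ A, ∀ y ∈ B, P x y = 0 := fun x hx =>
      (Finset.sum_eq_zero_iff_of_nonneg fun y _ => hP x y).1 (hza x hx)
    have e1 : ∑ x ∈ A, ∑ y ∈ B, negMulLog (P x y) = 0 :=
      Finset.sum_eq_zero fun x hx => Finset.sum_eq_zero fun y hy => by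
        rw [hz x hx y hy, negMulLog_zero]
    have e2 : ∑ x ∈ A, negMulLog (a x) = 0 :=
      Finset.sum_eq_zero fun x hx => by rw [hza x hx, negMulLog_zero]
    have e3 : ∑ y ∈ B, negMulLog (b y) = 0 :=
      Finset.sum_eq_zero fun y hy => by rw [hzb y hy, negMulLog_zero]
    rw [e1, e2, e3, ← h0]
    simp
  · have key : ∀ x ∈ A, ∀ y ∈ B, negMulLog (P x y) ≤
        P x y * (- Real.log (a x)) + P x y * (- Real.log (b y)) + P x y * Real.log s +
          (a x * b y / s - P x y) := by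
      intro x hx y hy
      have hax : P x y ≤ a x := Finset.single_le_sum (f := fun y => P x y)
        (fun y _ => hP x y) hy
      have hby : P x y ≤ b y := Finset.single_le_sum (f := fun x => P x y)
        (fun x _ => hP x y) hx
      rcases (hP x y).eq_or_lt with h | h
      · rw [← h]
        have : 0 ≤ a x * b y / s := div_nonneg (mul_nonneg (ha0 x) (hb0 y)) hs0
        simpa using this
      · have h1 : 0 < a x := by linarith
        have h2 : 0 < b y := by linarith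
        have h3 := eta_le (q := P x y) (c := a x * b y / s) (hP x y) (by positivity)
        rw [Real.log_div (by positivity) h0.ne', Real.log_mul h1.ne' h2.ne'] at h3
        linarith
    have h1 : ∑ x ∈ A, ∑ y ∈ B, negMulLog (P x y) ≤
        ∑ x ∈ A, ∑ y ∈ B, (P x y * (- Real.log (a x)) + P x y * (- Real.log (b y)) +
          P x y * Real.log s + (a x * b y / s - P x y)) :=
      Finset.sum_le_sum fun x hx => Finset.sum_le_sum fun y hy => key x hx y hy
    have h2 : ∑ x ∈ A, ∑ y ∈ B, P x y * (- Real.log (a x)) = ∑ x ∈ A, negMulLog (a x) := by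
      refine Finset.sum_congr rfl fun x _ => ?_
      rw [← Finset.sum_mul]
      unfold negMulLog
      ring
    have h3 : ∑ x ∈ A, ∑ y ∈ B, P x y * (- Real.log (b y)) = ∑ y ∈ B, negMulLog (b y) := by
      rw [Finset.sum_comm]
      refine Finset.sum_congr rfl fun y _ => ?_
      rw [← Finset.sum_mul]
      unfold negMulLog
      ring
    have h4 : ∑ x ∈ A, ∑ y ∈ B, P x y * Real.log s = s * Real.log s := by
      simp only [← Finset.sum_mul]
      rfl
    have h5 : ∑ x ∈ A, ∑ y ∈ B, a x * b y / s = s := by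
      have : ∀ x ∈ A, ∑ y ∈ B, a x * b y / s = a x := by
        intro x _
        rw [← Finset.sum_div, ← Finset.mul_sum, hsb]
        field_simp
      rw [Finset.sum_congr rfl this, hsa]
    have h6 : ∑ x ∈ A, ∑ y ∈ B, (P x y * (- Real.log (a x)) + P x y * (- Real.log (b y)) +
          P x y * Real.log s + (a x * b y / s - P x y)) =
        ∑ x ∈ A, negMulLog (a x) + ∑ y ∈ B, negMulLog (b y) + s * Real.log s + (s - s) := by
      simp only [Finset.sum_add_distrib, Finset.sum_sub_distrib]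
      rw [h2, h3, h4, h5]
    rw [h6] at h1
    have h7 : negMulLog s = - (s * Real.log s) := by unfold negMulLog; ring
    rw [h7]
    linarith

/-- Change of the order of summation. -/
theorem sum3 {α β γ : Type} (A : Finset α) (B : Finset β) (C : Finset γ) (f : α → β → γ → ℝ) :
    ∑ x ∈ A, ∑ y ∈ B, ∑ z ∈ C, f x y z = ∑ z ∈ C, ∑ x ∈ A, ∑ y ∈ B, f x y z := by
  have h : ∀ x ∈ A, ∑ y ∈ B, ∑ z ∈ C, f x y z = ∑ z ∈ C, ∑ y ∈ B, f x y z :=
    fun x _ => Finset.sum_comm
  rw [Finset.sum_congr rfl h, Finset.sum_comm]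

theorem t_SUBM : S_SUBM := by
  classical
  intro Ω α β γ _ p X Y Z hp
  set A : Finset α := Finset.univ.image X with hA'
  set B : Finset β := Finset.univ.image Y with hB'
  set C : Finset γ := Finset.univ.image Z with hC'
  have hA : ∀ ω, X ω ∈ A := fun ω => Finset.mem_image.2 ⟨ω, Finset.mem_univ _, rfl⟩
  have hB : ∀ ω, Y ω ∈ B := fun ω => Finset.mem_image.2 ⟨ω, Finset.mem_univ _, rfl⟩
  have hC : ∀ ω, Z ω ∈ C := fun ω => Finset.mem_image.2 ⟨ω, Finset.mem_univ _, rfl⟩
  set P : α → β → γ → ℝ := fun x y z => pr p (fun ω => (X ω, Y ω, Z ω)) (x, y, z) with hPdef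
  have e1 : Hp p (fun ω => (X ω, Y ω, Z ω)) =
      ∑ z ∈ C, ∑ x ∈ A, ∑ y ∈ B, negMulLog (P x y z) := by
    rw [Hp_triple p X Y Z A B C hA hB hC, sum3]
  have e2 : Hp p Z = ∑ z ∈ C, negMulLog (∑ x ∈ A, ∑ y ∈ B, P x y z) := by
    rw [t_LAWF Ω γ p Z C fun ω _ => hC ω]
    refine Finset.sum_congr rfl fun z _ => ?_
    rw [pr_snd p X Z A hA z]
    congr 1
    refine Finset.sum_congr rfl fun x _ => ?_
    exact pr_13 p X Y Z B hB x z
  have e3 : Hp p (fun ω => (X ω, Z ω)) = ∑ z ∈ C, ∑ x ∈ A, negMulLog (∑ y ∈ B, P x y z) := by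
    rw [Hp_pair p X Z A C hA hC]
    refine Finset.sum_congr rfl fun z _ => Finset.sum_congr rfl fun x _ => ?_
    rw [pr_13 p X Y Z B hB x z]
  have e4 : Hp p (fun ω => (Y ω, Z ω)) = ∑ z ∈ C, ∑ y ∈ B, negMulLog (∑ x ∈ A, P x y z) := by
    rw [Hp_pair p Y Z B C hB hC]
    refine Finset.sum_congr rfl fun z _ => Finset.sum_congr rfl fun y _ => ?_
    have := pr_snd p X (fun ω => (Y ω, Z ω)) A hA (y, z)
    rw [this]
  rw [e1, e2, e3, e4, ← Finset.sum_add_distrib, ← Finset.sum_add_distrib]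
  exact Finset.sum_le_sum fun z _ => eta_sub A B (fun x y => P x y z) fun x y => pr_nonneg hp _ _

theorem t_MARK : S_MARK := by
  classical
  intro Ω α β γ _ p X U Q κ hp hκ
  set A : Finset α := Finset.univ.image X with hA'
  set B : Finset β := Finset.univ.image U with hB'
  set C : Finset γ := Finset.univ.image Q with hC'
  have hA : ∀ ω, X ω ∈ A := fun ω => Finset.mem_image.2 ⟨ω, Finset.mem_univ _, rfl⟩
  have hB : ∀ ω, U ω ∈ B := fun ω => Finset.mem_image.2 ⟨ω, Finset.mem_univ _, rfl⟩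
  have hC : ∀ ω, Q ω ∈ C := fun ω => Finset.mem_image.2 ⟨ω, Finset.mem_univ _, rfl⟩
  set R : α → β → ℝ := fun x u => pr p (fun ω => (X ω, U ω)) (x, u) with hR
  have hR0 : ∀ x u, 0 ≤ R x u := fun x u => pr_nonneg hp _ _
  have e1 : Hp p (fun ω => (X ω, U ω, Q ω)) =
      ∑ u ∈ B, ∑ x ∈ A, ∑ a ∈ C, negMulLog (R x u * κ u a) := by
    rw [Hp_triple p X U Q A B C hA hB hC, Finset.sum_comm]
    refine Finset.sum_congr rfl fun u _ => Finset.sum_congr rfl fun x _ =>
      Finset.sum_congr rfl fun a _ => ?_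
    rw [hκ]
  have e2 : Hp p U = ∑ u ∈ B, negMulLog (∑ x ∈ A, R x u) := by
    rw [t_LAWF Ω β p U B fun ω _ => hB ω]
    refine Finset.sum_congr rfl fun u _ => ?_
    rw [pr_snd p X U A hA u]
  have e3 : Hp p (fun ω => (X ω, U ω)) = ∑ u ∈ B, ∑ x ∈ A, negMulLog (R x u) :=
    Hp_pair p X U A B hA hB
  have e4 : Hp p (fun ω => (U ω, Q ω)) =
      ∑ u ∈ B, ∑ a ∈ C, negMulLog ((∑ x ∈ A, R x u) * κ u a) := by
    rw [Hp_pair p U Q B C hB hC, Finset.sum_comm]
    refine Finset.sum_congr rfl fun u _ => Finset.sum_congr rfl fun a _ => ?_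
    have := pr_snd p X (fun ω => (U ω, Q ω)) A hA (u, a)
    rw [this, Finset.sum_mul]
    congr 1
    exact Finset.sum_congr rfl fun x _ => hκ x u a
  rw [e1, e2, e3, e4, ← Finset.sum_add_distrib, ← Finset.sum_add_distrib]
  refine Finset.sum_congr rfl fun u _ => ?_
  set s : ℝ := ∑ x ∈ A, R x u with hs
  set k : ℝ := ∑ a ∈ C, κ u a with hk
  have hRk : ∀ x, R x u * k = R x u := by
    intro x
    rw [hk, Finset.mul_sum]
    have := pr_12 p X U Q C hC x u
    rw [hR]
    simp only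
    rw [this]
    exact Finset.sum_congr rfl fun a _ => by rw [hκ, ← this]
  have f1 : ∑ x ∈ A, ∑ a ∈ C, negMulLog (R x u * κ u a) =
      k * ∑ x ∈ A, negMulLog (R x u) + s * ∑ a ∈ C, negMulLog (κ u a) := by
    simp only [negMulLog_mul, Finset.sum_add_distrib]
    rw [hs, hk]
    congr 1
    · rw [Finset.sum_comm, Finset.sum_mul]
      exact Finset.sum_congr rfl fun a _ => by rw [Finset.mul_sum]
    · rw [Finset.sum_mul]
      exact Finset.sum_congr rfl fun x _ => by rw [Finset.mul_sum]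
  have f2 : ∑ a ∈ C, negMulLog (s * κ u a) = k * negMulLog s + s * ∑ a ∈ C, negMulLog (κ u a) := by
    simp only [negMulLog_mul, Finset.sum_add_distrib]
    rw [hk, Finset.sum_mul, Finset.mul_sum]
  rw [f1, f2]
  by_cases h0 : s = 0
  · have hz : ∀ x ∈ A, R x u = 0 :=
      (Finset.sum_eq_zero_iff_of_nonneg fun x _ => hR0 x u).1 h0
    have hz' : ∑ x ∈ A, negMulLog (R x u) = 0 :=
      Finset.sum_eq_zero fun x hx => by rw [hz x hx, negMulLog_zero]
    rw [hz', h0]
    simp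
  · have hk1 : k = 1 := by
      have : s * k = s := by
        rw [hs, Finset.sum_mul]
        exact Finset.sum_congr rfl fun x _ => hRk x
      exact mul_left_cancel₀ h0 (by rw [this, mul_one])
    rw [hk1]
    ring

end Pool.Agent.K1H78.FE
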