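import Pool.Agent.K1H78.FE.Ent

/-!
# Walks: two independent words, subadditivity, the law of the problem, finite kernels

`t_PAIR`, `t_WALK`, `t_LAWH`, `t_KER`.
-/

set_option autoImplicit false

open Filter Topology MeasureTheory Real

namespace Pool.Agent.K1H78.FE

open Pool.Agent.K1H32.FE

section Pairs

variable {Ω₁ Ω₂ α β : Type} [Fintype Ω₁] [Fintype Ω₂]

theorem pr_sum_one {Ω α : Type} [Fintype Ω] (p : Ω → ℝ) (X : Ω → α) (A : Finset α)
    (hA : ∀ ω, X ω ∈ A) : ∑ a ∈ A, pr p X a = ∑ ω, p ω := by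
  classical
  unfold pr
  rw [Finset.sum_comm]
  refine Finset.sum_congr rfl fun ω _ => ?_
  rw [Finset.sum_ite_eq]
  simp [hA ω]

theorem pr_prod (p : Ω₁ → ℝ) (q : Ω₂ → ℝ) (X : Ω₁ → α) (Y : Ω₂ → β) (x : α) (y : β) :
    pr (fun ω : Ω₁ × Ω₂ => p ω.1 * q ω.2) (fun ω => (X ω.1, Y ω.2)) (x, y) =
      pr p X x * pr q Y y := by
  classical
  unfold pr
  rw [Fintype.sum_prod_type, Finset.sum_mul_sum]
  refine Finset.sum_congr rfl fun ω₁ _ => Finset.sum_congr rfl fun ω₂ _ => ?_
  by_cases hx : X ω₁ = x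
  · by_cases hy : Y ω₂ = y
    · simp [hx, hy]
    · simp [hy]
  · simp [hx]

theorem pr_left (p : Ω₁ → ℝ) (q : Ω₂ → ℝ) (X : Ω₁ → α) (x : α) (hq : ∑ ω, q ω = 1) :
    pr (fun ω : Ω₁ × Ω₂ => p ω.1 * q ω.2) (fun ω => X ω.1) x = pr p X x := by
  classical
  unfold pr
  rw [Fintype.sum_prod_type]
  refine Finset.sum_congr rfl fun ω₁ _ => ?_
  by_cases hx : X ω₁ = x
  · simp only [hx, if_true, ← Finset.mul_sum, hq, mul_one]
  · simp [hx]

theorem Hp_prod (p : Ω₁ → ℝ) (q : Ω₂ → ℝ) (X : Ω₁ → α) (Y : Ω₂ → β)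
    (hp : ∑ ω, p ω = 1) (hq : ∑ ω, q ω = 1) :
    Hp (fun ω : Ω₁ × Ω₂ => p ω.1 * q ω.2) (fun ω => (X ω.1, Y ω.2)) = Hp p X + Hp q Y := by
  classical
  set A : Finset α := Finset.univ.image X with hA'
  set B : Finset β := Finset.univ.image Y with hB'
  have hA : ∀ ω, X ω ∈ A := fun ω => Finset.mem_image.2 ⟨ω, Finset.mem_univ _, rfl⟩
  have hB : ∀ ω, Y ω ∈ B := fun ω => Finset.mem_image.2 ⟨ω, Finset.mem_univ _, rfl⟩
  rw [Hp_pair (fun ω : Ω₁ × Ω₂ => p ω.1 * q ω.2) (fun ω => X ω.1) (fun ω => Y ω.2) A B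
    (fun ω => hA ω.1) (fun ω => hB ω.2), t_LAWF Ω₁ α p X A fun ω _ => hA ω,
    t_LAWF Ω₂ β q Y B fun ω _ => hB ω]
  simp only [pr_prod, negMulLog_mul, Finset.sum_add_distrib]
  congr 1
  · rw [Finset.sum_comm]
    refine Finset.sum_congr rfl fun x _ => ?_
    rw [← Finset.sum_mul, pr_sum_one q Y B hB, hq, one_mul]
  · refine Finset.sum_congr rfl fun y _ => ?_
    rw [← Finset.sum_mul, pr_sum_one p X A hA, hp, one_mul]

theorem Hp_equiv (e : Ω₁ ≃ Ω₂) (p : Ω₂ → ℝ) (X : Ω₂ → α) :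
    Hp (fun ω => p (e ω)) (fun ω => X (e ω)) = Hp p X := by
  classical
  set A : Finset α := Finset.univ.image X with hA'
  have hA : ∀ ω, X ω ∈ A := fun ω => Finset.mem_image.2 ⟨ω, Finset.mem_univ _, rfl⟩
  rw [t_LAWF Ω₁ α _ _ A fun ω _ => hA (e ω), t_LAWF Ω₂ α p X A fun ω _ => hA ω]
  refine Finset.sum_congr rfl fun a _ => ?_
  congr 1
  unfold pr
  exact Equiv.sum_comp e fun ω => if X ω = a then p ω else 0

theorem Hp_left (p : Ω₁ → ℝ) (q : Ω₂ → ℝ) (X : Ω₁ → α) (hq : ∑ ω, q ω = 1) :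
    Hp (fun ω : Ω₁ × Ω₂ => p ω.1 * q ω.2) (fun ω => X ω.1) = Hp p X := by
  classical
  set A : Finset α := Finset.univ.image X with hA'
  have hA : ∀ ω, X ω ∈ A := fun ω => Finset.mem_image.2 ⟨ω, Finset.mem_univ _, rfl⟩
  rw [t_LAWF (Ω₁ × Ω₂) α _ _ A fun ω _ => hA ω.1, t_LAWF Ω₁ α p X A fun ω _ => hA ω]
  exact Finset.sum_congr rfl fun a _ => by rw [pr_left p q X a hq]

end Pairs

/-- Sum of the weights of the words. -/
theorem sum_wp {ι : Type} [Fintype ι] {m : ι → ℝ} (hm : IsPr m) (k : ℕ) :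
    ∑ w : Fin k → ι, wp m k w = 1 := by
  unfold wp
  have := (Finset.prod_univ_sum (fun _ : Fin k => (Finset.univ : Finset ι))
    (fun _ i => m i)).symm
  rw [Fintype.piFinset_univ] at this
  rw [this]
  simp [hm.sum]

theorem wp_nonneg {ι : Type} [Fintype ι] {m : ι → ℝ} (hm : IsPr m) (k : ℕ) (w : Fin k → ι) :
    0 ≤ wp m k w := Finset.prod_nonneg fun i _ => hm.nonneg _

/-- Concatenation of words. -/
def appE (ι : Type) (k j : ℕ) : (Fin k → ι) × (Fin j → ι) ≃ (Fin (k + j) → ι) where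
  toFun w := Fin.append w.1 w.2
  invFun w := (fun i => w (Fin.castAdd j i), fun i => w (Fin.natAdd k i))
  left_inv w := by
    ext i
    · simp
    · simp
  right_inv w := by
    ext i
    refine Fin.addCases (fun i => ?_) (fun i => ?_) i <;> simp

theorem t_PAIR : S_PAIR := by
  intro ι G _ _ σ m k j hm
  refine ⟨?_, ?_, ?_⟩
  · exact Hp_prod (wp m k) (wp m j) (wx σ k) (wx σ j) (sum_wp hm k) (sum_wp hm j)
  · unfold Hw
    rw [← Hp_equiv (appE ι k j) (wp m (k + j)) (wx σ (k + j))]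
    congr 1
    · funext ω
      simp only [appE, Equiv.coe_fn_mk, wp]
      rw [Fin.prod_univ_add]
      simp
    · funext ω
      simp only [appE, Equiv.coe_fn_mk, wx]
      have : (fun i => σ (Fin.append ω.1 ω.2 i)) =
          Fin.append (fun i => σ (ω.1 i)) (fun i => σ (ω.2 i)) := by
        funext i
        refine Fin.addCases (fun i => ?_) (fun i => ?_) i <;> simp
      rw [this, List.ofFn_fin_append, List.prod_append]
  · exact Hp_left (wp m k) (wp m j) (wx σ k) (sum_wp hm j)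

theorem Hw_nonneg {ι G : Type} [Fintype ι] [Group G] (σ : ι → G) {m : ι → ℝ} (hm : IsPr m)
    (k : ℕ) : 0 ≤ Hw σ m k := by
  classical
  unfold Hw Hp
  refine Finset.sum_nonneg fun a _ => negMulLog_nonneg ?_ ?_
  · exact pr_nonneg (wp_nonneg hm k) _ _
  · rw [← sum_wp hm k]
    unfold pr
    refine Finset.sum_le_sum fun w _ => ?_
    split_ifs
    · exact le_rfl
    · exact wp_nonneg hm k w

theorem Hw_sub {ι G : Type} [Fintype ι] [Group G] (σ : ι → G) {m : ι → ℝ} (hm : IsPr m)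
    (k j : ℕ) : Hw σ m (k + j) ≤ Hw σ m k + Hw σ m j := by
  obtain ⟨h1, h2, -⟩ := t_PAIR ι G σ m k j hm
  rw [← h1, ← h2]
  exact t_MONO _ _ _ (fun ω : (Fin k → ι) × (Fin j → ι) => wp m k ω.1 * wp m j ω.2)
    (fun ω => (wx σ k ω.1, wx σ j ω.2)) (fun x => x.1 * x.2)
    fun ω => mul_nonneg (wp_nonneg hm _ _) (wp_nonneg hm _ _)

theorem t_WALK : S_WALK := by
  intro ι G _ _ σ m hm
  have h0 := Hw_nonneg σ hm
  have hsub : Subadditive (Hw σ m) := Hw_sub σ hm
  have hbdd : BddBelow (Set.range fun n : ℕ => Hw σ m n / n) :=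
    ⟨0, by rintro _ ⟨n, rfl⟩; exact div_nonneg (h0 n) (Nat.cast_nonneg n)⟩
  have hbdd' : BddBelow (Set.range fun k : ℕ => Hw σ m (k + 1) / ((k : ℝ) + 1)) :=
    ⟨0, by rintro _ ⟨n, rfl⟩; exact div_nonneg (h0 _) (by positivity)⟩
  have hlim : hsub.lim = hav σ m := by
    unfold Subadditive.lim hav
    rw [iInf]
    congr 1
    ext x
    constructor
    · rintro ⟨n, hn, rfl⟩
      obtain ⟨k, rfl⟩ := Nat.exists_eq_succ_of_ne_zero (show n ≠ 0 from by
        have : 1 ≤ n := hn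
        omega)
      exact ⟨k, by simp⟩
    · rintro ⟨k, rfl⟩
      exact ⟨k + 1, by simp, by simp⟩
  have hT := hsub.tendsto_lim hbdd
  rw [hlim] at hT
  refine ⟨h0, ?_, hT, ?_, ?_⟩
  · unfold hav
    exact le_ciInf fun k => div_nonneg (h0 _) (by positivity)
  · intro k
    rcases k with _ | k
    · simpa using h0 0
    · have h1 : hav σ m ≤ Hw σ m (k + 1) / ((k : ℝ) + 1) := ciInf_le hbdd' k
      have h2 : (0 : ℝ) < (k : ℝ) + 1 := by positivity
      rw [le_div_iff₀ h2] at h1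
      push_cast
      linarith
  · intro k c hc
    rcases Nat.eq_zero_or_pos k with rfl | hk
    · have := hc 0
      simp at this
      simpa using this
    · have hN : ∀ N : ℕ, N * c ≤ Hw σ m (N * k) := by
        intro N
        induction N with
        | zero => simpa using h0 0
        | succ N ih =>
          have h1 := hc (N * k)
          have h2 : k + N * k = (N + 1) * k := by ring
          rw [h2] at h1
          push_cast
          linarith
      have hk' : (0 : ℝ) < k := by exact_mod_cast hk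
      have hT2 : Tendsto (fun N : ℕ => (k : ℝ) * (Hw σ m (N * k) / ((N * k : ℕ) : ℝ))) atTop
          (𝓝 (k * hav σ m)) := by
        have : Tendsto (fun N : ℕ => N * k) atTop atTop :=
          tendsto_atTop_mono (fun N => Nat.le_mul_of_pos_right N hk) tendsto_id
        exact (hT.comp this).const_mul _
      refine ge_of_tendsto hT2 ?_
      filter_upwards [eventually_ge_atTop 1] with N hN1
      have hN' : (0 : ℝ) < N := by exact_mod_cast hN1
      have := hN N
      push_cast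
      rw [show (k : ℝ) * (Hw σ m (N * k) / (N * k)) = Hw σ m (N * k) / N by field_simp,
        le_div_iff₀ hN']
      linarith

theorem law_eq {G : Type} [Group G] (S : Finset G) (μ : G → ℝ) (k : ℕ) (g : G) :
    law S μ k g = pr (wp (fun i : S => μ i) k) (wx (fun i : S => (i : G)) k) g := by
  classical
  unfold law pr
  symm
  refine Finset.sum_bij (fun (w : Fin k → S) _ => fun i => (w i : G)) ?_ ?_ ?_ ?_
  · intro w _
    simp [Fintype.mem_piFinset]
  · intro w _ w' _ h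
    funext i
    exact Subtype.ext (congrFun h i)
  · intro w hw
    rw [Fintype.mem_piFinset] at hw
    exact ⟨fun i => ⟨w i, hw i⟩, Finset.mem_univ _, rfl⟩
  · intro w _
    unfold wx wp
    congr!

theorem t_LAWH : S_LAWH := by
  classical
  intro G _ S μ k hμ
  unfold shannon Hw
  set p := wp (fun i : S => μ i) k with hp
  set X := wx (fun i : S => (i : G)) k with hX
  have h1 : (fun g => negMulLog (law S μ k g)) = fun g => negMulLog (pr p X g) := by
    funext g
    rw [law_eq]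
  rw [h1, finsum_eq_sum_of_support_subset (s := Finset.univ.image X)]
  · unfold Hp
    congr!
  · intro g hg
    rw [Function.mem_support] at hg
    by_contra hcon
    apply hg
    rw [pr_zero, negMulLog_zero]
    intro ω hω
    exact absurd (by rw [Finset.mem_coe]; exact Finset.mem_image.2 ⟨ω, Finset.mem_univ _, hω⟩) hcon

theorem t_KER : S_KER := by
  classical
  intro ι G G' _ _ _ ρ σ m hm hc
  obtain ⟨c, hc⟩ := hc
  have hX : ∀ k w, wx (fun i => ρ (σ i)) k w = ρ (wx σ k w) := by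
    intro k w
    unfold wx
    rw [map_list_prod, List.map_ofFn]
    rfl
  have hX' : ∀ k, wx (fun i => ρ (σ i)) k = fun w => ρ (wx σ k w) := fun k => funext (hX k)
  obtain ⟨-, -, hT, -, -⟩ := t_WALK ι G σ m hm
  obtain ⟨-, -, hT', -, -⟩ := t_WALK ι G' (fun i => ρ (σ i)) m hm
  have h1 : ∀ k, Hw (fun i => ρ (σ i)) m k ≤ Hw σ m k := by
    intro k
    unfold Hw
    rw [hX']
    exact t_MONO _ _ _ (wp m k) (wx σ k) ρ (wp_nonneg hm k)
  have h2 : ∀ k, Hw σ m k ≤ Hw (fun i => ρ (σ i)) m k + Real.log (max 1 c : ℕ) := by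
    intro k
    have e1 := t_MONO _ _ _ (wp m k) (fun w => (wx σ k w, ρ (wx σ k w))) Prod.fst (wp_nonneg hm k)
    have e2 := t_COND _ _ _ (wp m k) (wx σ k) (fun w => ρ (wx σ k w)) (fun _ => max 1 c)
      (wp_nonneg hm k) (fun _ => le_max_left _ _) (by
        intro y T hTT
        refine (hc T fun x hx x' hx' => ?_).trans (le_max_right _ _)
        obtain ⟨ω, rfl, hω, -⟩ := hTT x hx
        obtain ⟨ω', rfl, hω', -⟩ := hTT x' hx'
        rw [hω, hω'])
    rw [← Finset.sum_mul, sum_wp hm k, one_mul] at e2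
    unfold Hw
    rw [hX']
    simp only at e1
    linarith
  refine le_antisymm ?_ ?_
  · refine le_of_tendsto_of_tendsto' hT' hT fun k => ?_
    gcongr
    exact h1 k
  · have hT2 : Tendsto (fun k : ℕ => Hw (fun i => ρ (σ i)) m k / k +
        Real.log (max 1 c : ℕ) / k) atTop (𝓝 (hav (fun i => ρ (σ i)) m + 0)) :=
      hT'.add (tendsto_const_div_atTop_nhds_zero_nat _)
    rw [add_zero] at hT2
    refine le_of_tendsto_of_tendsto' hT hT2 fun k => ?_
    rw [← add_div]
    gcongr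
    exact h2 k

end Pool.Agent.K1H78.FE
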